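import Pool.Agent.J6H58.MC.Stm2
import Pool.Agent.J6H63.BC.TrueCon

/-!
# The finite consistency statements with dyadic numerals are true in the standard model
-/

set_option autoImplicit false

namespace Pool.Agent.J6H63.MC

open Pool.Agent.TH672 (Fm Str upd num digits upd_same upd_ne upd_upd upd_comm upd_self)
open Pool.Agent.TH636.BC (Fml Proves code robinson PrRel)
open Pool.Agent.TH838.J1549 (Q)
open Pool.Agent.TH197.J1545 (sat_proves)
open Pool.Agent.J6H49.BC (expansion)
open Pool.Agent.J6H63.BC (qR qR_nm robR prRel_iff upd_perm)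
open Pool.Agent.J6H58.MC

/-- the truth value of three instances -/
theorem sat_three {S : Str ℕ} (q : Q S) {φ : Fml} (hf : ∀ x, φ.Free x → x = 2 ∨ x = 3 ∨ x = 4)
    (a b c : ℕ) (v : ℕ → S.M) : Fm.Sat S (dnum 2 a (dnum 3 b (dnum 4 c φ))) v ↔
      Fm.Sat S φ (upd (upd (upd v 2 (q.nm a)) 3 (q.nm b)) 4 (q.nm c)) := by
  have g0 : ¬ φ.Free 0 := fun h => by have := hf 0 h; omega
  have g1 : ¬ φ.Free 1 := fun h => by have := hf 1 h; omega
  rw [sat_dnum q (by omega) (fun h => g0 (free_dnum (free_dnum h).2).2)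
      (fun h => g1 (free_dnum (free_dnum h).2).2),
    sat_dnum q (by omega) (fun h => g0 (free_dnum h).2)
      (fun h => g1 (free_dnum h).2), sat_dnum q (by omega) g0 g1]

/-- the truth value of a consistency statement in a model of Robinson arithmetic -/
theorem sat_conAtD {S : Str ℕ} (q : Q S) {P : Fml} (hP : ∀ x, P.Free x → x = 2 ∨ x = 3 ∨ x = 4)
    (Γ : List Fml) (n : ℕ) (v : ℕ → S.M) : Fm.Sat S (conAtD P Γ n) v ↔
      Fm.Sat S P.neg (upd (upd (upd v 3 (q.nm n)) 2 (q.nm (code Γ))) 4 (q.nm (code [Fm.bot]))) := by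
  have hf : ∀ x, (P.neg).Free x → x = 2 ∨ x = 3 ∨ x = 4 := fun x hx => by
    simp only [Fm.neg, Fm.Free, or_false] at hx
    exact hP x hx
  have g0 : ¬ (P.neg).Free 0 := fun h => by have := hf 0 h; omega
  have g1 : ¬ (P.neg).Free 1 := fun h => by have := hf 1 h; omega
  unfold conAtD conD
  rw [sat_dnum q (by omega) (fun h => g0 (free_dnum (free_dnum h).2).2)
      (fun h => g1 (free_dnum (free_dnum h).2).2),
    sat_dnum q (by omega) (fun h => g0 (free_dnum h).2)
      (fun h => g1 (free_dnum h).2), sat_dnum q (by omega) g0 g1]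

/-- MODULE 8: the finite consistency statements are true in the standard model if and only if
there is no such proof. -/
theorem trueConQ : TrueConQT := by
  intro P hP R Γ n v
  have hf : ∀ x, (P.neg).Free x → x = 2 ∨ x = 3 ∨ x = 4 := fun x hx => by
    simp only [Fm.neg, Fm.Free, or_false] at hx
    exact hP.free x hx
  rw [sat_conAtD (qR R) hP.free, qR_nm, qR_nm, qR_nm, upd_perm]
  constructor
  · intro h hpr
    obtain ⟨k, hk⟩ := hP.pos _ _ _ (prRel_iff.2 hpr)
    have hs := sat_proves (S := expansion R) (robR R) hk v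
    rw [sat_three (qR R) hP.free, qR_nm, qR_nm, qR_nm] at hs
    exact h hs
  · intro h
    obtain ⟨k, hk⟩ := hP.neg _ _ _ (fun h' => h (prRel_iff.1 h'))
    have hs := sat_proves (S := expansion R) (robR R) hk v
    rw [sat_three (qR R) hf, qR_nm, qR_nm, qR_nm] at hs
    exact hs

end Pool.Agent.J6H63.MC
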